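import Mathlib
import Pool.Agent.H27.LinTab

namespace Pool.Agent.Results.MP_693840_co.Counter

open Classical in
/-- The linear extensions of a finite poset `P` with `n` elements: the bijections
`f : P → {1, …, n}` with `f u < f v` whenever `u < v`. -/
noncomputable def linExts (P : Type) [Fintype P] [PartialOrder P] : Finset (P → ℕ) :=
  (Fintype.piFinset fun _ : P => Finset.Icc 1 (Fintype.card P)).filter fun f =>
    Set.BijOn f Set.univ (Set.Icc 1 (Fintype.card P)) ∧ ∀ u v : P, u < v → f u < f v

/-- The average height of `y`: the mean of `f y` over all linear extensions `f` of `P`. -/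
noncomputable def avgHeight (P : Type) [Fintype P] [PartialOrder P] (y : P) : ℚ :=
  (∑ f ∈ linExts P, (f y : ℚ)) / ((linExts P).card : ℚ)

section General

variable {α : Type} [Fintype α] [DecidableEq α] [PartialOrder α]

def IsLE (U : Finset α) (f : α → ℕ) : Prop :=
  (∀ y ∈ U, 1 ≤ f y ∧ f y ≤ U.card) ∧ (∀ u ∈ U, ∀ v ∈ U, f u = f v → u = v) ∧
    (∀ u ∈ U, ∀ v ∈ U, u < v → f u < f v) ∧ ∀ y, y ∉ U → f y = 0

open Classical in
noncomputable def E (U : Finset α) : Finset (α → ℕ) :=
  (Fintype.piFinset fun _ : α => Finset.range (Fintype.card α + 1)).filter (IsLE U)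

open Classical in
lemma mem_E (U : Finset α) (f : α → ℕ) : f ∈ E U ↔ IsLE U f := by
  unfold E
  rw [Finset.mem_filter, Fintype.mem_piFinset]
  refine ⟨fun h => h.2, fun h => ⟨fun a => ?_, h⟩⟩
  rw [Finset.mem_range]
  by_cases ha : a ∈ U
  · have h1 := (h.1 a ha).2
    have h2 := Finset.card_le_univ U
    omega
  · rw [h.2.2.2 a ha]
    omega

omit [Fintype α] [DecidableEq α] in
lemma surj (U : Finset α) (f : α → ℕ) (h : IsLE U f) (m : ℕ) (h1 : 1 ≤ m) (h2 : m ≤ U.card) :
    ∃ v ∈ U, f v = m := by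
  have hsub : U.image f ⊆ Finset.Icc 1 U.card := by
    intro z hz
    rcases Finset.mem_image.1 hz with ⟨y, hy, rfl⟩
    exact Finset.mem_Icc.2 (h.1 y hy)
  have hcard : (U.image f).card = U.card :=
    Finset.card_image_of_injOn (fun u hu v hv e => h.2.1 u hu v hv e)
  have heq : U.image f = Finset.Icc 1 U.card :=
    Finset.eq_of_subset_of_card_le hsub (by rw [hcard, Nat.card_Icc]; omega)
  have hm : m ∈ U.image f := by
    rw [heq]
    exact Finset.mem_Icc.2 ⟨h1, h2⟩
  exact Finset.mem_image.1 hm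

open Classical in
lemma rec_sum (U : Finset α) (n : ℕ) (hU : U.card = n + 1) (φ : (α → ℕ) → ℕ) :
    ∑ f ∈ E U, φ f = ∑ v ∈ U.filter (fun v => ∀ u ∈ U, ¬ v < u),
      ∑ g ∈ E (U.erase v), φ (Function.update g v (n + 1)) := by
  have h1 : ∑ f ∈ E U, φ f = ∑ f ∈ E U, ∑ v ∈ U.filter (fun v => ∀ u ∈ U, ¬ v < u),
      if f v = n + 1 then φ f else 0 := by
    refine Finset.sum_congr rfl fun f hf => ?_
    have hf' := (mem_E U f).1 hf
    obtain ⟨v, hv, hfv⟩ := surj U f hf' (n + 1) (by omega) (by omega)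
    rw [Finset.sum_eq_single v]
    · rw [if_pos hfv]
    · intro b hb hbv
      rw [if_neg]
      intro hfb
      exact hbv (hf'.2.1 b (Finset.mem_filter.1 hb).1 v hv (by rw [hfb, hfv]))
    · intro hn
      exfalso
      apply hn
      refine Finset.mem_filter.2 ⟨hv, fun u hu hlt => ?_⟩
      have a1 := hf'.2.2.1 v hv u hu hlt
      have a2 := (hf'.1 u hu).2
      omega
  rw [h1, Finset.sum_comm]
  refine Finset.sum_congr rfl fun v hv => ?_
  obtain ⟨hvU, hvmax⟩ := Finset.mem_filter.1 hv
  have hce : (U.erase v).card = n := by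
    rw [Finset.card_erase_of_mem hvU]
    omega
  rw [← Finset.sum_filter]
  refine Finset.sum_nbij' (fun f => Function.update f v 0) (fun g => Function.update g v (n + 1))
    ?_ ?_ ?_ ?_ ?_
  · intro f hf
    obtain ⟨hf1, hfv⟩ := Finset.mem_filter.1 hf
    have hf' := (mem_E U f).1 hf1
    refine (mem_E _ _).2 ⟨?_, ?_, ?_, ?_⟩
    · intro y hy
      obtain ⟨hyv, hyU⟩ := Finset.mem_erase.1 hy
      rw [Function.update_of_ne hyv, hce]
      have a1 := hf'.1 y hyU
      have a2 : f y ≠ n + 1 := fun e => hyv (hf'.2.1 y hyU v hvU (by rw [e, hfv]))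
      omega
    · intro a ha b hb
      obtain ⟨hav, haU⟩ := Finset.mem_erase.1 ha
      obtain ⟨hbv, hbU⟩ := Finset.mem_erase.1 hb
      rw [Function.update_of_ne hav, Function.update_of_ne hbv]
      exact hf'.2.1 a haU b hbU
    · intro a ha b hb
      obtain ⟨hav, haU⟩ := Finset.mem_erase.1 ha
      obtain ⟨hbv, hbU⟩ := Finset.mem_erase.1 hb
      rw [Function.update_of_ne hav, Function.update_of_ne hbv]
      exact hf'.2.2.1 a haU b hbU
    · intro y hy
      by_cases hyv : y = v
      · rw [hyv, Function.update_self]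
      · rw [Function.update_of_ne hyv]
        exact hf'.2.2.2 y (fun h => hy (Finset.mem_erase.2 ⟨hyv, h⟩))
  · intro g hg
    have hg' := (mem_E _ g).1 hg
    have hb : ∀ y ∈ U, y ≠ v → 1 ≤ g y ∧ g y ≤ n := by
      intro y hy hyv
      have := hg'.1 y (Finset.mem_erase.2 ⟨hyv, hy⟩)
      rw [hce] at this
      exact this
    refine Finset.mem_filter.2 ⟨(mem_E _ _).2 ⟨?_, ?_, ?_, ?_⟩, Function.update_self ..⟩
    · intro y hy
      by_cases hyv : y = v
      · rw [hyv, Function.update_self]
        omega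
      · rw [Function.update_of_ne hyv]
        have := hb y hy hyv
        omega
    · intro a ha b hb'
      by_cases hav : a = v
      · by_cases hbv : b = v
        · intro _
          rw [hav, hbv]
        · rw [hav, Function.update_self, Function.update_of_ne hbv]
          have := hb b hb' hbv
          omega
      · by_cases hbv : b = v
        · rw [hbv, Function.update_self, Function.update_of_ne hav]
          have := hb a ha hav
          omega
        · rw [Function.update_of_ne hav, Function.update_of_ne hbv]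
          exact hg'.2.1 a (Finset.mem_erase.2 ⟨hav, ha⟩) b (Finset.mem_erase.2 ⟨hbv, hb'⟩)
    · intro a ha b hb' hab
      by_cases hav : a = v
      · rw [hav] at hab
        exact absurd hab (hvmax b hb')
      · by_cases hbv : b = v
        · rw [hbv, Function.update_self, Function.update_of_ne hav]
          have := hb a ha hav
          omega
        · rw [Function.update_of_ne hav, Function.update_of_ne hbv]
          exact hg'.2.2.1 a (Finset.mem_erase.2 ⟨hav, ha⟩) b (Finset.mem_erase.2 ⟨hbv, hb'⟩) hab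
    · intro y hy
      have hyv : y ≠ v := fun e => hy (e ▸ hvU)
      rw [Function.update_of_ne hyv]
      exact hg'.2.2.2 y (fun h => hy (Finset.mem_erase.1 h).2)
  · intro f hf
    obtain ⟨_, hfv⟩ := Finset.mem_filter.1 hf
    show Function.update (Function.update f v 0) v (n + 1) = f
    rw [Function.update_idem, ← hfv, Function.update_eq_self]
  · intro g hg
    have hg' := (mem_E _ g).1 hg
    show Function.update (Function.update g v (n + 1)) v 0 = g
    rw [Function.update_idem, ← hg'.2.2.2 v (Finset.notMem_erase v U), Function.update_eq_self]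
  · intro f hf
    obtain ⟨_, hfv⟩ := Finset.mem_filter.1 hf
    show φ f = φ (Function.update (Function.update f v 0) v (n + 1))
    rw [Function.update_idem, ← hfv, Function.update_eq_self]

noncomputable def NN (U : Finset α) : ℕ := ∑ _f ∈ E U, 1

noncomputable def WW (S U : Finset α) : ℕ := ∑ f ∈ E U, ∑ y ∈ S, f y

open Classical in
lemma NN_rec (U : Finset α) (n : ℕ) (hU : U.card = n + 1) :
    NN U = ∑ v ∈ U.filter (fun v => ∀ u ∈ U, ¬ v < u), NN (U.erase v) :=
  rec_sum U n hU (fun _ => 1)

open Classical in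
lemma WW_rec (S U : Finset α) (n : ℕ) (hU : U.card = n + 1) :
    WW S U = ∑ v ∈ U.filter (fun v => ∀ u ∈ U, ¬ v < u),
      (WW S (U.erase v) + (if v ∈ S then n + 1 else 0) * NN (U.erase v)) := by
  unfold WW NN
  rw [rec_sum U n hU (fun f => ∑ y ∈ S, f y)]
  refine Finset.sum_congr rfl fun v _ => ?_
  rw [Finset.mul_sum, ← Finset.sum_add_distrib]
  refine Finset.sum_congr rfl fun g hg => ?_
  have hg0 : g v = 0 := ((mem_E _ g).1 hg).2.2.2 v (Finset.notMem_erase v U)
  by_cases hv : v ∈ S
  · rw [if_pos hv, Finset.sum_update_of_mem hv, ← Finset.add_sum_erase S g hv, hg0,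
      Finset.sdiff_singleton_eq_erase]
    omega
  · rw [if_neg hv, Finset.sum_update_of_notMem hv]
    omega

lemma E_empty : E (∅ : Finset α) = {fun _ => 0} := by
  ext f
  rw [mem_E, Finset.mem_singleton]
  constructor
  · intro h
    funext y
    exact h.2.2.2 y (Finset.notMem_empty y)
  · rintro rfl
    refine ⟨?_, ?_, ?_, fun _ _ => rfl⟩
    · intro y hy
      exact absurd hy (Finset.notMem_empty y)
    · intro y hy
      exact absurd hy (Finset.notMem_empty y)
    · intro y hy
      exact absurd hy (Finset.notMem_empty y)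

open Classical in
lemma transfer {β : Type} [Fintype β] [PartialOrder β] (e : β → α) (he : Function.Injective e)
    (hlt : ∀ a b, e a < e b ↔ a < b) (U : Finset α) (hU : ∀ y, y ∈ U ↔ ∃ b, e b = y)
    (φ : (β → ℕ) → ℚ) : ∑ f ∈ linExts β, φ f = ∑ g ∈ E U, φ (g ∘ e) := by
  have hc : Fintype.card β = U.card := by
    have : U = Finset.univ.image e := by
      ext y
      rw [hU, Finset.mem_image]
      exact ⟨fun ⟨b, hb⟩ => ⟨b, Finset.mem_univ b, hb⟩, fun ⟨b, _, hb⟩ => ⟨b, hb⟩⟩
    rw [this, Finset.card_image_of_injective _ he, Finset.card_univ]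
  refine Finset.sum_nbij' (fun f => Function.extend e f (fun _ => 0)) (fun g => g ∘ e)
    ?_ ?_ ?_ ?_ ?_
  · intro f hf
    unfold linExts at hf
    obtain ⟨_, hbij, hmono⟩ := Finset.mem_filter.1 hf
    refine (mem_E _ _).2 ⟨?_, ?_, ?_, ?_⟩
    · intro y hy
      obtain ⟨b, rfl⟩ := (hU y).1 hy
      rw [he.extend_apply, ← hc]
      exact hbij.1 (Set.mem_univ b)
    · intro u hu v hv
      obtain ⟨a, rfl⟩ := (hU u).1 hu
      obtain ⟨b, rfl⟩ := (hU v).1 hv
      rw [he.extend_apply, he.extend_apply]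
      intro h
      rw [hbij.2.1 (Set.mem_univ a) (Set.mem_univ b) h]
    · intro u hu v hv
      obtain ⟨a, rfl⟩ := (hU u).1 hu
      obtain ⟨b, rfl⟩ := (hU v).1 hv
      rw [he.extend_apply, he.extend_apply, hlt]
      exact hmono a b
    · intro y hy
      exact Function.extend_apply' f (fun _ => 0) y (fun h => hy ((hU y).2 h))
  · intro g hg
    have hg' := (mem_E _ g).1 hg
    have hm : ∀ b, e b ∈ U := fun b => (hU _).2 ⟨b, rfl⟩
    unfold linExts
    refine Finset.mem_filter.2 ⟨Fintype.mem_piFinset.2 fun b => ?_, ⟨?_, ?_, ?_⟩, ?_⟩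
    · rw [hc]
      exact Finset.mem_Icc.2 (hg'.1 _ (hm b))
    · intro b _
      rw [hc]
      exact hg'.1 _ (hm b)
    · intro a _ b _ h
      exact he (hg'.2.1 _ (hm a) _ (hm b) h)
    · intro m hm'
      rw [hc] at hm'
      obtain ⟨v, hv, hgv⟩ := surj U g hg' m hm'.1 hm'.2
      obtain ⟨b, rfl⟩ := (hU v).1 hv
      exact ⟨b, Set.mem_univ b, hgv⟩
    · intro a b hab
      exact hg'.2.2.1 _ (hm a) _ (hm b) ((hlt a b).2 hab)
  · intro f _
    funext b
    exact he.extend_apply f (fun _ => 0) b
  · intro g hg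
    have hg' := (mem_E _ g).1 hg
    funext y
    by_cases hy : y ∈ U
    · obtain ⟨b, rfl⟩ := (hU y).1 hy
      exact he.extend_apply (g ∘ e) (fun _ => 0) b
    · rw [hg'.2.2.2 y hy]
      exact Function.extend_apply' (g ∘ e) (fun _ => 0) y (fun h => hy ((hU y).2 h))
  · intro f _
    congr 1
    funext b
    exact (he.extend_apply f (fun _ => 0) b).symm

lemma avg_eq {β : Type} [Fintype β] [PartialOrder β] (e : β → α) (he : Function.Injective e)
    (hlt : ∀ a b, e a < e b ↔ a < b) (U : Finset α) (hU : ∀ y, y ∈ U ↔ ∃ b, e b = y) (b : β) :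
    avgHeight β b = (∑ g ∈ E U, (g (e b) : ℚ)) / (NN U : ℚ) := by
  unfold avgHeight NN
  rw [transfer e he hlt U hU (fun f => (f b : ℚ)), Finset.card_eq_sum_ones, Nat.cast_sum,
    Nat.cast_sum, transfer e he hlt U hU (fun _ => ((1 : ℕ) : ℚ))]
  rfl

end General

open Pool.Agent.H27.LinTab

def R (a b : ℕ) : Prop :=
  (a < b ∧ b < 34) ∨ (34 ≤ a ∧ a < b ∧ b < 99) ∨ (a < 7 ∧ b = 99) ∨
    (a = 99 ∧ 50 ≤ b ∧ b < 99) ∨ (a < 7 ∧ 50 ≤ b ∧ b < 99)

structure Q where
  val : ℕ
  lt : val < 100

lemma Q.ext' {a b : Q} (h : a.val = b.val) : a = b := by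
  cases a
  cases b
  cases h
  rfl

def eqv : Q ≃ Fin 100 where
  toFun a := ⟨a.val, a.lt⟩
  invFun a := ⟨a.val, a.isLt⟩
  left_inv _ := rfl
  right_inv _ := rfl

instance : DecidableEq Q := eqv.decidableEq

instance : Fintype Q := Fintype.ofEquiv (Fin 100) eqv.symm

lemma card_Q : Fintype.card Q = 100 := by
  rw [Fintype.card_congr eqv, Fintype.card_fin]

instance : PartialOrder Q where
  le a b := a.val = b.val ∨ R a.val b.val
  lt a b := R a.val b.val
  le_refl _ := Or.inl rfl
  le_trans a b c := by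
    unfold R
    omega
  lt_iff_le_not_ge a b := by
    unfold R
    omega
  le_antisymm a b h1 h2 := by
    apply Q.ext'
    unfold R at h1 h2
    omega

lemma lt_def (a b : Q) : a < b ↔ R a.val b.val := Iff.rfl

lemma eq_iff (a b : Q) : a = b ↔ a.val = b.val := ⟨fun h => by rw [h], Q.ext'⟩

def U (p q : ℕ) (s : Bool) : Finset Q :=
  Finset.univ.filter fun u => u.val < p ∨ (34 ≤ u.val ∧ u.val < 34 + q) ∨ (s = true ∧ u.val = 99)

lemma mem_U (p q : ℕ) (s : Bool) (u : Q) :
    u ∈ U p q s ↔ u.val < p ∨ (34 ≤ u.val ∧ u.val < 34 + q) ∨ (s = true ∧ u.val = 99) := by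
  unfold U
  rw [Finset.mem_filter]
  exact ⟨fun h => h.2, fun h => ⟨Finset.mem_univ _, h⟩⟩

def mk (n : ℕ) : Q := ⟨n % 100, Nat.mod_lt _ (by norm_num)⟩

lemma mk_val (n : ℕ) (h : n < 100) : (mk n).val = n := Nat.mod_eq_of_lt h

lemma erase_a (p q : ℕ) (s : Bool) (hp : p ≤ 34) (h1 : 1 ≤ p) :
    (U p q s).erase (mk (p - 1)) = U (p - 1) q s := by
  ext u
  rw [Finset.mem_erase, mem_U, mem_U, Ne, eq_iff, mk_val _ (by omega)]
  cases s <;> simp <;> omega

lemma erase_b (p q : ℕ) (s : Bool) (hp : p ≤ 34) (hq : q ≤ 65) (h1 : 1 ≤ q) :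
    (U p q s).erase (mk (33 + q)) = U p (q - 1) s := by
  ext u
  rw [Finset.mem_erase, mem_U, mem_U, Ne, eq_iff, mk_val _ (by omega)]
  cases s <;> simp <;> omega

lemma erase_x (p q : ℕ) (s : Bool) (hp : p ≤ 34) (hq : q ≤ 65) :
    (U p q s).erase (mk 99) = U p q false := by
  ext u
  rw [Finset.mem_erase, mem_U, mem_U, Ne, eq_iff, mk_val _ (by omega)]
  cases s <;> simp <;> omega

lemma U_zero : U 0 0 false = ∅ := by
  ext u
  rw [mem_U]
  simp

lemma card_U : ∀ (n p q : ℕ) (s : Bool), p ≤ 34 → q ≤ 65 → sz p q s = n → (U p q s).card = n := by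
  intro n
  induction n with
  | zero =>
    intro p q s hp hq h
    unfold sz at h
    cases s
    · have h1 : p = 0 := by simp at h; omega
      have h2 : q = 0 := by simp at h; omega
      rw [h1, h2, U_zero, Finset.card_empty]
    · simp at h
  | succ n ih =>
    intro p q s hp hq h
    by_cases h1 : 1 ≤ p
    · have hm : mk (p - 1) ∈ U p q s := by
        rw [mem_U, mk_val _ (by omega)]
        omega
      rw [← Finset.card_erase_add_one hm, erase_a p q s hp h1,
        ih (p - 1) q s (by omega) hq (by unfold sz at h ⊢; omega)]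
    · by_cases h2 : 1 ≤ q
      · have hm : mk (33 + q) ∈ U p q s := by
          rw [mem_U, mk_val _ (by omega)]
          omega
        rw [← Finset.card_erase_add_one hm, erase_b p q s hp hq h2,
          ih p (q - 1) s hp (by omega) (by unfold sz at h ⊢; omega)]
      · cases s
        · unfold sz at h
          simp at h
          omega
        · have hm : mk 99 ∈ U p q true := by
            rw [mem_U, mk_val _ (by omega)]
            simp
          rw [← Finset.card_erase_add_one hm, erase_x p q true hp hq,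
            ih p q false hp hq (by unfold sz at h ⊢; simp at h ⊢; omega)]

lemma max_iff (p q : ℕ) (s : Bool) (hp : p ≤ 34) (hq : q ≤ 65) (v : Q) :
    (v ∈ U p q s ∧ ∀ u ∈ U p q s, ¬ v < u) ↔
      (v.val = p - 1 ∧ cA p q s) ∨ (v.val = 33 + q ∧ 1 ≤ q) ∨ (v.val = 99 ∧ s = true ∧ q < 17) := by
  have hv := v.lt
  constructor
  · rintro ⟨h1, h2⟩
    have ha : 1 ≤ p → ¬ R v.val (p - 1) := by
      intro h
      have := h2 (mk (p - 1)) (by rw [mem_U, mk_val _ (by omega)]; omega)
      rwa [lt_def, mk_val _ (by omega)] at this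
    have hb : 1 ≤ q → ¬ R v.val (33 + q) := by
      intro h
      have := h2 (mk (33 + q)) (by rw [mem_U, mk_val _ (by omega)]; omega)
      rwa [lt_def, mk_val _ (by omega)] at this
    have hx : s = true → ¬ R v.val 99 := by
      intro h
      have := h2 (mk 99) (by rw [mem_U, mk_val _ (by omega)]; simp [h])
      rwa [lt_def, mk_val _ (by omega)] at this
    rw [mem_U] at h1
    unfold R at ha hb hx
    unfold cA
    cases s
    · simp only [Bool.false_eq_true, false_and, or_false, false_or, and_false] at h1 ⊢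
      omega
    · have hx' := hx rfl
      simp only [true_and, true_or, and_true] at h1 ⊢
      omega
  · intro h
    unfold cA at h
    refine ⟨?_, fun u hu => ?_⟩
    · rw [mem_U]
      cases s
      · simp only [Bool.false_eq_true, false_and, or_false, false_or, and_false] at h ⊢
        omega
      · simp only [true_and, true_or, and_true] at h ⊢
        omega
    · rw [mem_U] at hu
      rw [lt_def]
      unfold R
      cases s
      · simp only [Bool.false_eq_true, false_and, or_false, false_or, and_false] at h hu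
        omega
      · simp only [true_and, true_or, and_true] at h hu
        omega

lemma sum_single (c : Prop) [Decidable c] (m : ℕ) (hm : m < 100) (F : Q → ℕ) :
    (∑ v : Q, if v.val = m ∧ c then F v else 0) = if c then F (mk m) else 0 := by
  by_cases hc : c
  · rw [if_pos hc, Finset.sum_eq_single (mk m)]
    · rw [if_pos ⟨mk_val m hm, hc⟩]
    · intro b _ hb
      rw [if_neg]
      intro h
      exact hb (Q.ext' (by rw [h.1, mk_val m hm]))
    · intro h
      exact absurd (Finset.mem_univ _) h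
  · rw [if_neg hc]
    exact Finset.sum_eq_zero fun v _ => if_neg fun h => hc h.2

open Classical in
lemma sum_max (p q : ℕ) (s : Bool) (hp : p ≤ 34) (hq : q ≤ 65) (F : Q → ℕ) :
    ∑ v ∈ (U p q s).filter (fun v => ∀ u ∈ U p q s, ¬ v < u), F v =
      (if cA p q s then F (mk (p - 1)) else 0) + (if 1 ≤ q then F (mk (33 + q)) else 0) +
        (if s = true ∧ q < 17 then F (mk 99) else 0) := by
  rw [← sum_single (cA p q s) (p - 1) (by omega) F, ← sum_single (1 ≤ q) (33 + q) (by omega) F,
    ← sum_single (s = true ∧ q < 17) 99 (by omega) F, ← Finset.sum_add_distrib,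
    ← Finset.sum_add_distrib]
  have h0 : ∑ v ∈ (U p q s).filter (fun v => ∀ u ∈ U p q s, ¬ v < u), F v =
      ∑ v : Q, if v ∈ (U p q s).filter (fun v => ∀ u ∈ U p q s, ¬ v < u) then F v else 0 := by
    rw [Finset.sum_ite_mem, Finset.univ_inter]
  rw [h0]
  refine Finset.sum_congr rfl fun v _ => ?_
  have hm : v ∈ (U p q s).filter (fun v => ∀ u ∈ U p q s, ¬ v < u) ↔ _ :=
    Finset.mem_filter.trans (max_iff p q s hp hq v)
  by_cases c1 : v.val = p - 1 ∧ cA p q s
  · rw [if_pos (hm.2 (Or.inl c1)), if_pos c1, if_neg (by omega), if_neg (by omega)]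
    rfl
  · by_cases c2 : v.val = 33 + q ∧ 1 ≤ q
    · rw [if_pos (hm.2 (Or.inr (Or.inl c2))), if_neg c1, if_pos c2, if_neg (by omega)]
      omega
    · by_cases c3 : v.val = 99 ∧ s = true ∧ q < 17
      · rw [if_pos (hm.2 (Or.inr (Or.inr c3))), if_neg c1, if_neg c2, if_pos c3]
        omega
      · rw [if_neg (fun h => by
          rcases hm.1 h with h | h | h
          · exact c1 h
          · exact c2 h
          · exact c3 h), if_neg c1, if_neg c2, if_neg c3]

def S : Finset Q := Finset.univ.filter fun u => 25 ≤ u.val ∧ u.val < 99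

lemma mem_S (u : Q) : u ∈ S ↔ 25 ≤ u.val ∧ u.val < 99 := by
  unfold S
  rw [Finset.mem_filter]
  exact ⟨fun h => h.2, fun h => ⟨Finset.mem_univ _, h⟩⟩

lemma tab_eq : ∀ (n p q : ℕ) (s : Bool), p ≤ 34 → q ≤ 65 → sz p q s = n →
    NN (U p q s) = TN p q s ∧ WW S (U p q s) = TW p q s := by
  intro n
  induction n with
  | zero =>
    intro p q s hp hq h
    unfold sz at h
    cases s
    · have h1 : p = 0 := by simp at h; omega
      have h2 : q = 0 := by simp at h; omega
      rw [h1, h2, U_zero, tab_zero.1, tab_zero.2]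
      unfold NN WW
      rw [E_empty]
      simp
    · simp at h
  | succ n ih =>
    intro p q s hp hq h
    have hc := card_U (n + 1) p q s hp hq h
    obtain ⟨r1, r2⟩ := tab_rec p q s hp hq (by omega)
    have iA : cA p q s → NN ((U p q s).erase (mk (p - 1))) = TN (p - 1) q s ∧
        WW S ((U p q s).erase (mk (p - 1))) = TW (p - 1) q s := by
      intro c
      rw [erase_a p q s hp c.1]
      have c1 := c.1
      exact ih (p - 1) q s (by omega) hq (by unfold sz at h ⊢; omega)
    have iB : 1 ≤ q → NN ((U p q s).erase (mk (33 + q))) = TN p (q - 1) s ∧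
        WW S ((U p q s).erase (mk (33 + q))) = TW p (q - 1) s := by
      intro c
      rw [erase_b p q s hp hq c]
      exact ih p (q - 1) s hp (by omega) (by unfold sz at h ⊢; omega)
    have iX : s = true ∧ q < 17 → NN ((U p q s).erase (mk 99)) = TN p q false ∧
        WW S ((U p q s).erase (mk 99)) = TW p q false := by
      intro c
      rw [erase_x p q s hp hq]
      refine ih p q false hp hq ?_
      unfold sz at h ⊢
      rw [if_pos c.1] at h
      simp
      omega
    constructor
    · rw [NN_rec _ n hc, r1]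
      refine (sum_max p q s hp hq (fun v => NN ((U p q s).erase v))).trans ?_
      unfold recN
      refine congrArg₂ (· + ·) (congrArg₂ (· + ·) ?_ ?_) ?_
      · exact if_ctx_congr Iff.rfl (fun c => (iA c).1) (fun _ => rfl)
      · exact if_ctx_congr Iff.rfl (fun c => (iB c).1) (fun _ => rfl)
      · exact if_ctx_congr Iff.rfl (fun c => (iX c).1) (fun _ => rfl)
    · rw [WW_rec S _ n hc, r2]
      refine (sum_max p q s hp hq (fun v => WW S ((U p q s).erase v) +
        (if v ∈ S then n + 1 else 0) * NN ((U p q s).erase v))).trans ?_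
      unfold recW
      refine congrArg₂ (· + ·) (congrArg₂ (· + ·) ?_ ?_) ?_
      · refine if_ctx_congr Iff.rfl (fun c => ?_) (fun _ => rfl)
        have c1 := c.1
        have hS : mk (p - 1) ∈ S ↔ 26 ≤ p := by
          rw [mem_S, mk_val _ (by omega)]
          omega
        rw [(iA c).1, (iA c).2, h, if_congr hS rfl rfl]
      · refine if_ctx_congr Iff.rfl (fun c => ?_) (fun _ => rfl)
        rw [(iB c).1, (iB c).2, h, if_pos]
        rw [mem_S, mk_val _ (by omega)]
        omega
      · refine if_ctx_congr Iff.rfl (fun c => ?_) (fun _ => rfl)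
        rw [(iX c).1, (iX c).2, if_neg, zero_mul, add_zero]
        rw [mem_S, mk_val _ (by omega)]
        omega

theorem result : ∃ (P : Type) (_ : Fintype P) (_ : DecidableEq P) (_ : PartialOrder P) (x : P),
    (Fintype.card P : ℚ) - 1 <
      ∑ y : {y : P // y ≠ x}, max (avgHeight P y.1 - avgHeight {y : P // y ≠ x} y) 0 := by
  refine ⟨Q, inferInstance, inferInstance, inferInstance, mk 99, ?_⟩
  have e1 : ∀ y : Q, avgHeight Q y =
      (∑ g ∈ E (U 34 65 true), (g y : ℚ)) / (NN (U 34 65 true) : ℚ) := by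
    intro y
    refine avg_eq id Function.injective_id (fun _ _ => Iff.rfl) (U 34 65 true) (fun z => ?_) y
    rw [mem_U]
    have := z.lt
    exact ⟨fun _ => ⟨z, rfl⟩, fun _ => by simp only [true_and]; omega⟩
  have e2 : ∀ y : {y : Q // y ≠ mk 99}, avgHeight {y : Q // y ≠ mk 99} y =
      (∑ g ∈ E (U 34 65 false), (g y.1 : ℚ)) / (NN (U 34 65 false) : ℚ) := by
    intro y
    refine avg_eq Subtype.val Subtype.val_injective (fun _ _ => Iff.rfl) (U 34 65 false)
      (fun z => ?_) y
    rw [mem_U]
    have := z.lt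
    simp only [Bool.false_eq_true, false_and, or_false]
    constructor
    · intro h
      refine ⟨⟨z, ?_⟩, rfl⟩
      rw [Ne, eq_iff, mk_val _ (by omega)]
      omega
    · rintro ⟨b, rfl⟩
      have hb := b.2
      rw [Ne, eq_iff, mk_val _ (by omega)] at hb
      omega
  let D : Q → ℚ := fun y => (∑ g ∈ E (U 34 65 true), (g y : ℚ)) / (NN (U 34 65 true) : ℚ) -
    (∑ g ∈ E (U 34 65 false), (g y : ℚ)) / (NN (U 34 65 false) : ℚ)
  have e3 : ∑ y : {y : Q // y ≠ mk 99}, max (avgHeight Q y.1 - avgHeight {y : Q // y ≠ mk 99} y) 0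
      = ∑ y ∈ Finset.univ.erase (mk 99), max (D y) 0 := by
    rw [Finset.sum_subtype (Finset.univ.erase (mk 99)) (p := fun y => y ≠ mk 99)
      (fun y => by simp)]
    refine Finset.sum_congr rfl fun y _ => ?_
    rw [e1, e2]
  have e4 : ∑ y ∈ S, D y ≤ ∑ y ∈ Finset.univ.erase (mk 99), max (D y) 0 := by
    refine le_trans (Finset.sum_le_sum fun y _ => le_max_left (D y) 0) ?_
    refine Finset.sum_le_sum_of_subset_of_nonneg ?_ (fun y _ _ => le_max_right _ _)
    intro y hy
    rw [mem_S] at hy
    refine Finset.mem_erase.2 ⟨?_, Finset.mem_univ y⟩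
    rw [Ne, eq_iff, mk_val _ (by omega)]
    omega
  have e5 : ∑ y ∈ S, D y = (WW S (U 34 65 true) : ℚ) / (NN (U 34 65 true) : ℚ) -
      (WW S (U 34 65 false) : ℚ) / (NN (U 34 65 false) : ℚ) := by
    unfold WW
    rw [Finset.sum_sub_distrib, ← Finset.sum_div, ← Finset.sum_div, Finset.sum_comm,
      Finset.sum_comm (s := S)]
    push_cast
    rfl
  obtain ⟨t1, t2⟩ := tab_eq _ 34 65 true le_rfl le_rfl rfl
  obtain ⟨t3, t4⟩ := tab_eq _ 34 65 false le_rfl le_rfl rfl
  rw [t1, t2, t3, t4, tab_top.1, tab_top.2.1, tab_top.2.2.1, tab_top.2.2.2] at e5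
  rw [e3, card_Q]
  refine lt_of_lt_of_le ?_ e4
  rw [e5]
  norm_num

end Pool.Agent.Results.MP_693840_co.Counter
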